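import Pool.Agent.helper41.CL.SpecC

set_option autoImplicit false

namespace Pool.Agent.helper41.CL

open Finset

theorem DD : DD_stmt := by
  classical
  intro α _ V E p q hG hpq hE hp hq
  let E0 : Finset (Finset α) := E.filter fun e => p ∉ e ∧ q ∉ e
  let f : Finset α → α := fun e => if h : e.Nonempty then h.choose else p
  have hf : ∀ e ∈ E, f e ∈ e := by
    intro e he
    have hne : e.Nonempty := by
      rw [← Finset.card_pos, (hG e he).2]
      norm_num
    simp only [f, dif_pos hne]
    exact hne.choose_spec
  have hdis : Disjoint (inc E p) (inc E q) := by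
    rw [Finset.disjoint_left]
    intro e he1 he2
    rw [inc, Finset.mem_filter] at he1 he2
    apply hE
    have h1 : ({p, q} : Finset α) = e := by
      apply Finset.eq_of_subset_of_card_le
      · intro z hz
        simp only [mem_insert, mem_singleton] at hz
        rcases hz with rfl | rfl
        · exact he1.2
        · exact he2.2
      · rw [(hG e he1.1).2, Finset.card_pair hpq]
    rw [h1]
    exact he1.1
  have hdis2 : Disjoint E0 (inc E p ∪ inc E q) := by
    rw [Finset.disjoint_left]
    intro e he1 he2
    rw [Finset.mem_filter] at he1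
    rw [Finset.mem_union, inc, inc, Finset.mem_filter, Finset.mem_filter] at he2
    rcases he2 with h | h
    · exact he1.2.1 h.2
    · exact he1.2.2 h.2
  have hcard : #E0 + (#(inc E p) + #(inc E q)) ≤ #E := by
    rw [← Finset.card_union_of_disjoint hdis, ← Finset.card_union_of_disjoint hdis2]
    apply Finset.card_le_card
    intro e he
    rw [Finset.mem_union, Finset.mem_union] at he
    rcases he with h | h | h
    · exact (Finset.mem_filter.1 h).1
    · exact (Finset.mem_filter.1 h).1
    · exact (Finset.mem_filter.1 h).1
  refine ⟨{p, q} ∪ E0.image f, ?_, ?_⟩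
  · intro e he
    by_cases h1 : p ∈ e
    · exact ⟨p, h1, by simp⟩
    by_cases h2 : q ∈ e
    · exact ⟨q, h2, by simp⟩
    refine ⟨f e, hf e he, Finset.mem_union_right _ (Finset.mem_image_of_mem f ?_)⟩
    exact Finset.mem_filter.2 ⟨he, h1, h2⟩
  · have h1 := Finset.card_union_le ({p, q} : Finset α) (E0.image f)
    have h2 : #(E0.image f) ≤ #E0 := Finset.card_image_le
    rw [Finset.card_pair hpq] at h1
    omega

end Pool.Agent.helper41.CL
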