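import Pool.Agent.helper47.CL.SpecD

/-! Project CL, row NS. -/

set_option autoImplicit false

namespace Pool.Agent.helper41.CL

open Finset

theorem NS_form {α : Type} [DecidableEq α] {V : Finset α} {E : Finset (Finset α)} (hG : Gr V E)
    {p : α} {e : Finset α} (he : e ∈ inc E p) : ∃ x, p ≠ x ∧ e = {p, x} := by
  rw [inc, mem_filter] at he
  obtain ⟨he1, he2⟩ := he
  obtain ⟨u, v, huv, rfl⟩ := card_eq_two.mp (hG e he1).2
  rw [mem_insert, mem_singleton] at he2
  rcases he2 with rfl | rfl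
  · exact ⟨v, huv, rfl⟩
  · exact ⟨u, fun h => huv h.symm, Finset.pair_comm _ _⟩

theorem NS_two {α : Type} [DecidableEq α] {V : Finset α} {E : Finset (Finset α)} (hG : Gr V E)
    {p : α} (h2 : #(inc E p) = 2) : ∃ a b, Tw E p a b := by
  obtain ⟨e1, e2, hne, hinc⟩ := card_eq_two.mp h2
  have m1 : e1 ∈ inc E p := by rw [hinc]; simp
  have m2 : e2 ∈ inc E p := by rw [hinc]; simp
  obtain ⟨a, hpa, rfl⟩ := NS_form hG m1
  obtain ⟨b, hpb, rfl⟩ := NS_form hG m2
  refine ⟨a, b, ?_, hpa, hpb, (mem_filter.mp m1).1, (mem_filter.mp m2).1, ?_⟩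
  · rintro rfl
    exact hne rfl
  · intro e he hpe
    have h : e ∈ inc E p := mem_filter.mpr ⟨he, hpe⟩
    rw [hinc, mem_insert, mem_singleton] at h
    exact h

theorem NS_swap {α : Type} [DecidableEq α] {E : Finset (Finset α)} {p a b : α} (h : Tw E p a b) :
    Tw E p b a := by
  obtain ⟨h1, h2, h3, h4, h5, h6⟩ := h
  exact ⟨fun h => h1 h.symm, h3, h2, h5, h4, fun e he hp => (h6 e he hp).symm⟩

theorem NS_deg {α : Type} [DecidableEq α] {E : Finset (Finset α)} {p a b : α} (h : Tw E p a b) :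
    1 ≤ #(inc E a) ∧ 1 ≤ #(inc E b) ∧ 2 ≤ #(inc E p) := by
  obtain ⟨h1, h2, h3, h4, h5, h6⟩ := h
  refine ⟨?_, ?_, ?_⟩
  · refine card_pos.mpr ⟨{p, a}, mem_filter.mpr ⟨h4, by simp⟩⟩
  · refine card_pos.mpr ⟨{p, b}, mem_filter.mpr ⟨h5, by simp⟩⟩
  · have hne : ({p, a} : Finset α) ≠ {p, b} := by
      intro h
      have ha : a ∈ ({p, b} : Finset α) := by rw [← h]; simp
      rw [mem_insert, mem_singleton] at ha
      rcases ha with ha | ha
      · exact h2 ha.symm
      · exact h1 ha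
    have hs : ({{p, a}, {p, b}} : Finset (Finset α)) ⊆ inc E p := by
      intro e he
      rw [mem_insert, mem_singleton] at he
      rcases he with rfl | rfl
      · exact mem_filter.mpr ⟨h4, by simp⟩
      · exact mem_filter.mpr ⟨h5, by simp⟩
    have := card_le_card hs
    rwa [card_pair hne] at this

theorem NS_main {α : Type} [DecidableEq α] {V : Finset α} {E : Finset (Finset α)} (hG : Gr V E)
    (hd : ∀ x, #(inc E x) ≤ 2) {p a b : α} (hT : Tw E p a b) (hb : #(inc E b) ≠ 1) :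
    (∃ p a b, Tw E p a b ∧ 2 ≤ #(inc E a) ∧ 2 ≤ #(inc E b) ∧ {a, b} ∉ E) ∨ (∃ p a b, Tw E p a b ∧ {a, b} ∈ E) ∨
    (∃ p a b y, Tw E p a b ∧ Tw E b p y ∧ #(inc E a) = 1 ∧ #(inc E y) = 1) := by
  obtain ⟨d1, d2, d3⟩ := NS_deg hT
  have hb2 : #(inc E b) = 2 := by have := hd b; omega
  by_cases ha : #(inc E a) = 1
  · obtain ⟨x, y, hxy⟩ := NS_two hG hb2
    have hp : p = x ∨ p = y := by
      have h := hxy.2.2.2.2.2 {p, b} hT.2.2.2.2.1 (by simp)
      have hpb : p ≠ b := hT.2.2.1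
      rcases h with h | h
      · left
        have hp : p ∈ ({b, x} : Finset α) := by rw [← h]; simp
        rw [mem_insert, mem_singleton] at hp
        exact hp.resolve_left hpb
      · right
        have hp : p ∈ ({b, y} : Finset α) := by rw [← h]; simp
        rw [mem_insert, mem_singleton] at hp
        exact hp.resolve_left hpb
    have hz : ∃ z, Tw E b p z := by
      rcases hp with rfl | rfl
      · exact ⟨y, hxy⟩
      · exact ⟨x, NS_swap hxy⟩
    obtain ⟨z, hz⟩ := hz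
    obtain ⟨f1, f2, f3⟩ := NS_deg hz
    by_cases hz1 : #(inc E z) = 1
    · exact Or.inr (Or.inr ⟨p, a, b, z, hT, hz, ha, hz1⟩)
    · refine Or.inl ⟨b, p, z, hz, d3, by omega, ?_⟩
      intro hpz
      have h := hT.2.2.2.2.2 {p, z} hpz (by simp)
      have hpz' : z ≠ p := fun h => hz.1 h.symm
      rcases h with h | h
      · have hm : z ∈ ({p, a} : Finset α) := by rw [← h]; simp
        rw [mem_insert, mem_singleton] at hm
        have := hm.resolve_left hpz'
        subst this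
        exact hz1 ha
      · have hm : z ∈ ({p, b} : Finset α) := by rw [← h]; simp
        rw [mem_insert, mem_singleton] at hm
        have := hm.resolve_left hpz'
        exact hz.2.2.1 this.symm
  · by_cases hab : ({a, b} : Finset α) ∈ E
    · exact Or.inr (Or.inl ⟨p, a, b, hT, hab⟩)
    · exact Or.inl ⟨p, a, b, hT, by omega, by omega, hab⟩

/-- Row NS. -/
theorem NS : NS_stmt := by
  intro α _ V E hG
  by_cases h3 : ∃ p, 3 ≤ #(inc E p)
  · exact Or.inl h3
  have hd : ∀ x, #(inc E x) ≤ 2 := by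
    intro x
    by_contra h
    exact h3 ⟨x, by omega⟩
  by_cases hl : ∀ p a b, Tw E p a b → #(inc E a) = 1 ∧ #(inc E b) = 1
  · exact Or.inr (Or.inr (Or.inr (Or.inr ⟨hd, hl⟩)))
  push Not at hl
  obtain ⟨p, a, b, hT, hab⟩ := hl
  have key : (∃ p a b, Tw E p a b ∧ 2 ≤ #(inc E a) ∧ 2 ≤ #(inc E b) ∧ {a, b} ∉ E) ∨ (∃ p a b, Tw E p a b ∧ {a, b} ∈ E) ∨
      (∃ p a b y, Tw E p a b ∧ Tw E b p y ∧ #(inc E a) = 1 ∧ #(inc E y) = 1) := by
    by_cases ha : #(inc E a) = 1
    · exact NS_main hG hd hT (hab ha)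
    · exact NS_main hG hd (NS_swap hT) ha
  rcases key with h | h | h
  · exact Or.inr (Or.inl h)
  · exact Or.inr (Or.inr (Or.inl ⟨hd, h⟩))
  · exact Or.inr (Or.inr (Or.inr (Or.inl h)))

end Pool.Agent.helper41.CL
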