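import Pool.Agent.helper47.CL.SpecC

set_option autoImplicit false

namespace Pool.Agent.helper41.CL

open Finset

theorem YB_pair {α : Type} [DecidableEq α] {e : Finset α} {p : α} (h : #e = 2) (hp : p ∈ e) :
    ∃ a, p ≠ a ∧ a ∈ e ∧ e = {p, a} := by
  obtain ⟨x, z, hxz, rfl⟩ := Finset.card_eq_two.1 h
  simp only [mem_insert, mem_singleton] at hp
  rcases hp with rfl | rfl
  · exact ⟨z, hxz, by simp, rfl⟩
  · exact ⟨x, hxz.symm, by simp, Finset.pair_comm _ _⟩

theorem YB_nb {α : Type} [DecidableEq α] {V : Finset α} {E : Finset (Finset α)} {p : α} (hG : Gr V E)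
    (h : #(inc E p) = 2) : ∃ a b : α, a ≠ b ∧ p ≠ a ∧ p ≠ b ∧ a ∈ V ∧ b ∈ V ∧
      ({p, a} : Finset α) ∈ E ∧ ({p, b} : Finset α) ∈ E ∧ ∀ e ∈ E, p ∈ e → e = {p, a} ∨ e = {p, b} := by
  obtain ⟨e1, e2, hne, hi⟩ := Finset.card_eq_two.1 h
  have m1 : e1 ∈ inc E p := by rw [hi]; simp
  have m2 : e2 ∈ inc E p := by rw [hi]; simp
  rw [inc, Finset.mem_filter] at m1 m2
  obtain ⟨a, hpa, ha, hea⟩ := YB_pair (hG e1 m1.1).2 m1.2
  obtain ⟨b, hpb, hb, heb⟩ := YB_pair (hG e2 m2.1).2 m2.2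
  refine ⟨a, b, ?_, hpa, hpb, (hG e1 m1.1).1 ha, (hG e2 m2.1).1 hb, hea ▸ m1.1, heb ▸ m2.1, ?_⟩
  · rintro rfl
    exact hne (hea.trans heb.symm)
  · intro e he hpe
    have h3 : e ∈ inc E p := by rw [inc, Finset.mem_filter]; exact ⟨he, hpe⟩
    rw [hi] at h3
    simp only [mem_insert, mem_singleton] at h3
    rcases h3 with h3 | h3
    · exact Or.inl (h3.trans hea)
    · exact Or.inr (h3.trans heb)

theorem YB (h1 : AZ_stmt) (h2 : AO_stmt) (h3 : SP_stmt) (h4 : WO_stmt) (h5 : EA_stmt) (h6 : SD_stmt) :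
    YB_stmt := by
  intro α _ V E c y hG hc hE hV hy hyE
  obtain ⟨d, rfl⟩ : ∃ d, c = d + 2 := ⟨c - 2, by omega⟩
  rw [Nat.add_sub_cancel]
  by_cases hEc : #E ≤ d + 2
  · have h7 := h1 α V E (d + 2) hG hEc (by omega)
    have e : 2 ^ (d + 2) = 4 * 2 ^ d := by ring
    omega
  have hEc' : #E = d + 3 := by omega
  have hsum := h6 α V E hG
  obtain ⟨p, hpV, hp2⟩ : ∃ p ∈ V, 2 ≤ #(inc E p) := by
    by_contra hcon
    push Not at hcon
    have h7 : ∑ x ∈ V, #(inc E x) ≤ ∑ _x ∈ V, 1 := Finset.sum_le_sum fun x hx => by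
      have := hcon x hx
      omega
    rw [Finset.sum_const, smul_eq_mul, mul_one] at h7
    omega
  have hSP := h3 α V E p (d + 1) hpV
  have hV1 : #(V.erase p) = 2 * d + 4 := by
    rw [Finset.card_erase_of_mem hpV]
    omega
  have hE1 : #(E.filter fun e => p ∉ e) + #(inc E p) = #E := by
    have h7 := Finset.card_filter_add_card_filter_not (s := E) (fun e => p ∈ e)
    unfold inc
    omega
  have hG1 : Gr (V.erase p) (E.filter fun e => p ∉ e) := by
    intro e he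
    rw [Finset.mem_filter] at he
    refine ⟨fun x hx => Finset.mem_erase.2 ⟨fun h => he.2 (h ▸ hx), (hG e he.1).1 hx⟩, (hG e he.1).2⟩
  have e2 : d + 1 + 1 = d + 2 := rfl
  rw [e2] at hSP
  by_cases hp3 : 3 ≤ #(inc E p)
  · have hAO := h2 α (V.erase p) (E.filter fun e => p ∉ e) d hG1 (by omega) (by omega)
    rw [hV1] at hAO
    have e3 : 2 * (2 * d + 4) - 3 * d = d + 8 := by omega
    rw [e3] at hAO
    have e4 : 2 ^ d * 8 ≤ 2 ^ d * (d + 8) := Nat.mul_le_mul_left _ (by omega)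
    omega
  have hp2' : #(inc E p) = 2 := by omega
  have hE1c : #(E.filter fun e => p ∉ e) = d + 1 := by omega
  by_cases hq : ∃ q, 2 ≤ #(inc (E.filter fun e => p ∉ e) q)
  · obtain ⟨q, hq⟩ := hq
    have hd1 : 1 ≤ d := by
      have h7 : #(inc (E.filter fun e => p ∉ e) q) ≤ #(E.filter fun e => p ∉ e) :=
        Finset.card_filter_le _ _
      omega
    have hEA := h5 α (V.erase p) (E.filter fun e => p ∉ e) q hG1 hq (by omega)
    rw [hV1, hE1c] at hEA
    have e3 : 2 * (2 * d + 4) - 3 * (d + 1) + 6 = d + 11 := by omega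
    rw [e3, pow_succ] at hEA
    have e4 : 2 ^ d * 2 * 12 ≤ 2 ^ d * 2 * (d + 11) := Nat.mul_le_mul_left _ (by omega)
    omega
  push Not at hq
  have hAZ := h1 α (V.erase p) (E.filter fun e => p ∉ e) (d + 1) hG1 (by omega) (by omega)
  obtain ⟨a, b, hab, hpa, hpb, haV, hbV, haE, hbE, hcl⟩ := YB_nb hG hp2'
  have hWO := h4 α V E p a b d haV hbV hpa hpb hab hcl
  have hya : a ≠ y := by
    rintro rfl
    exact hyE _ haE (by simp)
  have hyb : b ≠ y := by
    rintro rfl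
    exact hyE _ hbE (by simp)
  have hyp : y ≠ p := by
    rintro rfl
    exact hyE _ hbE (by simp)
  have hE0 : #(E.filter fun e => p ∉ e ∧ a ∉ e ∧ b ∉ e) ≤ d := by
    by_contra hcon
    have hsub : (E.filter fun e => p ∉ e ∧ a ∉ e ∧ b ∉ e) ⊆ E.filter fun e => p ∉ e := by
      intro e he
      rw [Finset.mem_filter] at he ⊢
      exact ⟨he.1, he.2.1⟩
    have heq : (E.filter fun e => p ∉ e ∧ a ∉ e ∧ b ∉ e) = E.filter fun e => p ∉ e :=
      Finset.eq_of_subset_of_card_le hsub (by omega)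
    have hsum1 := h6 α (V.erase p) (E.filter fun e => p ∉ e) hG1
    have hz : ∀ x ∈ ({a, b, y} : Finset α), #(inc (E.filter fun e => p ∉ e) x) = 0 := by
      intro x hx
      rw [Finset.card_eq_zero, inc, Finset.filter_eq_empty_iff]
      intro e he hxe
      have he' := he
      rw [← heq, Finset.mem_filter] at he'
      simp only [mem_insert, mem_singleton] at hx
      rcases hx with rfl | rfl | rfl
      · exact he'.2.2.1 hxe
      · exact he'.2.2.2 hxe
      · exact hyE e he'.1 hxe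
    have hsub3 : ({a, b, y} : Finset α) ⊆ V.erase p := by
      intro x hx
      simp only [mem_insert, mem_singleton] at hx
      rw [Finset.mem_erase]
      rcases hx with rfl | rfl | rfl
      · exact ⟨hpa.symm, haV⟩
      · exact ⟨hpb.symm, hbV⟩
      · exact ⟨hyp, hy⟩
    have hc3 : #({a, b, y} : Finset α) = 3 := by
      rw [Finset.card_eq_three]
      exact ⟨a, b, y, hab, hya, hyb, rfl⟩
    have h7 : ∑ x ∈ V.erase p, #(inc (E.filter fun e => p ∉ e) x) =
        ∑ x ∈ (V.erase p) \ {a, b, y}, #(inc (E.filter fun e => p ∉ e) x) := by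
      rw [← Finset.sum_sdiff hsub3, Finset.sum_eq_zero hz, add_zero]
    have h8 : ∑ x ∈ (V.erase p) \ {a, b, y}, #(inc (E.filter fun e => p ∉ e) x) ≤
        ∑ _x ∈ (V.erase p) \ {a, b, y}, 1 := Finset.sum_le_sum fun x _ => by
      have := hq x
      omega
    rw [Finset.sum_const, smul_eq_mul, mul_one, Finset.card_sdiff_of_subset hsub3, hc3, hV1] at h8
    omega
  have hG0 : Gr (V \ {p, a, b}) (E.filter fun e => p ∉ e ∧ a ∉ e ∧ b ∉ e) := by
    intro e he
    rw [Finset.mem_filter] at he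
    refine ⟨fun x hx => ?_, (hG e he.1).2⟩
    rw [Finset.mem_sdiff]
    refine ⟨(hG e he.1).1 hx, ?_⟩
    simp only [mem_insert, mem_singleton, not_or]
    exact ⟨fun h => he.2.1 (h ▸ hx), fun h => he.2.2.1 (h ▸ hx), fun h => he.2.2.2 (h ▸ hx)⟩
  have hV0 : 2 * d ≤ #(V \ {p, a, b}) := by
    have h7 := Finset.le_card_sdiff ({p, a, b} : Finset α) V
    have h8 : #({p, a, b} : Finset α) ≤ 3 := Finset.card_le_three
    omega
  have hAZ0 := h1 α (V \ {p, a, b}) (E.filter fun e => p ∉ e ∧ a ∉ e ∧ b ∉ e) d hG0 hE0 hV0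
  have e5 : 2 ^ (d + 1) = 2 * 2 ^ d := by ring
  omega

end Pool.Agent.helper41.CL
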